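import Pool.Agent.Helper74.LI.Sur

/-!
# Project LI (MP_db811f_gt): alternating relations

`Alt N K b l`: `l` is a list of nontrivial elements, alternately from `N` and from `K`, the first one
from `N` if `b = true`, from `K` if `b = false`.
-/

namespace Pool.Agent.Helper74.LI

variable {G : Type} [Group G]

/-- alternating lists of nontrivial elements of `N` and `K` -/
def Alt (N K : Subgroup G) : Bool → List G → Prop
  | _, [] => True
  | b, g :: l => g ∈ (cond b N K) ∧ g ≠ 1 ∧ Alt N K (!b) l

/-- `N` and `K` are dependent: a nonempty alternating product of nontrivial elements of `N` and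
`K` is `1`, that is, the homomorphism from the free product of `N` and `K` to `G` is not
injective -/
def Dep (N K : Subgroup G) : Prop :=
  ∃ (b : Bool) (l : List G), l ≠ [] ∧ Alt N K b l ∧ l.prod = 1

/-- the type of the letter number `n` -/
def typ : Bool → ℕ → Bool
  | b, 0 => b
  | b, n + 1 => typ (!b) n

theorem alt_cons {N K : Subgroup G} {b : Bool} {g : G} {l : List G} :
    Alt N K b (g :: l) ↔ g ∈ (cond b N K) ∧ g ≠ 1 ∧ Alt N K (!b) l := Iff.rfl

theorem alt_take {N K : Subgroup G} : ∀ (n : ℕ) (b : Bool) (l : List G), Alt N K b l →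
    Alt N K b (l.take n)
  | 0, b, l, _ => by rw [List.take_zero]; trivial
  | n + 1, b, [], _ => by rw [List.take_nil]; trivial
  | n + 1, b, g :: l, h => by
    rw [List.take_succ_cons]
    exact ⟨h.1, h.2.1, alt_take n (!b) l h.2.2⟩

theorem alt_drop {N K : Subgroup G} : ∀ (n : ℕ) (b : Bool) (l : List G), Alt N K b l →
    Alt N K (typ b n) (l.drop n)
  | 0, b, l, h => by rw [List.drop_zero]; exact h
  | n + 1, b, [], _ => by rw [List.drop_nil]; trivial
  | n + 1, b, g :: l, h => by
    rw [List.drop_succ_cons]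
    exact alt_drop n (!b) l h.2.2

theorem alt_getD {N K : Subgroup G} : ∀ (n : ℕ) (b : Bool) (l : List G), Alt N K b l →
    n < l.length → l.getD n 1 ∈ cond (typ b n) N K ∧ l.getD n 1 ≠ 1
  | n, b, [], _, h => absurd h (by simp)
  | 0, b, g :: l, h, _ => ⟨h.1, h.2.1⟩
  | n + 1, b, g :: l, h, h' => by
    have h1 := alt_getD n (!b) l h.2.2 (by simpa using h')
    exact h1

theorem typ_succ : ∀ (b : Bool) (n : ℕ), typ b (n + 1) = !(typ b n)
  | b, 0 => rfl
  | b, n + 1 => typ_succ (!b) n

theorem typ_two (b : Bool) (n : ℕ) : typ b (n + 2) = typ b n := by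
  rw [typ_succ, typ_succ, Bool.not_not]

theorem typ_even (b : Bool) (n : ℕ) : typ b (2 * n) = b := by
  induction n with
  | zero => rfl
  | succ n ih => rw [Nat.mul_succ, typ_two, ih]

theorem typ_odd (b : Bool) (n : ℕ) : typ b (2 * n + 1) = !b := by
  rw [typ_succ, typ_even]

theorem alt_swap {N K : Subgroup G} : ∀ (b : Bool) (l : List G), Alt N K b l →
    Alt K N (!b) l
  | _, [], _ => trivial
  | b, g :: l, h => by
    refine ⟨?_, h.2.1, alt_swap (!b) l h.2.2⟩
    have h1 := h.1
    cases b
    · exact h1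
    · exact h1

theorem alt_mono {N K N' K' : Subgroup G} (hN : N ≤ N') (hK : K ≤ K') : ∀ (b : Bool)
    (l : List G), Alt N K b l → Alt N' K' b l
  | _, [], _ => trivial
  | b, g :: l, h => by
    refine ⟨?_, h.2.1, alt_mono hN hK (!b) l h.2.2⟩
    have h1 := h.1
    cases b
    · exact hK h1
    · exact hN h1

theorem Dep.swap {N K : Subgroup G} (h : Dep N K) : Dep K N := by
  obtain ⟨b, l, h1, h2, h3⟩ := h
  exact ⟨!b, l, h1, alt_swap b l h2, h3⟩

theorem Dep.mono {N K N' K' : Subgroup G} (hN : N ≤ N') (hK : K ≤ K') (h : Dep N K) :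
    Dep N' K' := by
  obtain ⟨b, l, h1, h2, h3⟩ := h
  exact ⟨b, l, h1, alt_mono hN hK b l h2, h3⟩

/-- a shortest alternating relation -/
structure MinRel (N K : Subgroup G) (b : Bool) (l : List G) : Prop where
  ne : l ≠ []
  alt : Alt N K b l
  one : l.prod = 1
  min : ∀ (b' : Bool) (l' : List G), l' ≠ [] → Alt N K b' l' → l'.prod = 1 →
    l.length ≤ l'.length

theorem exists_min {N K : Subgroup G} (h : Dep N K) : ∃ (b : Bool) (l : List G),
    MinRel N K b l := by
  classical
  have hex : ∃ n : ℕ, ∃ (b : Bool) (l : List G), l.length = n ∧ l ≠ [] ∧ Alt N K b l ∧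
      l.prod = 1 := by
    obtain ⟨b, l, h1, h2, h3⟩ := h
    exact ⟨_, b, l, rfl, h1, h2, h3⟩
  obtain ⟨b, l, h0, h1, h2, h3⟩ := Nat.find_spec hex
  refine ⟨b, l, h1, h2, h3, fun b' l' h1' h2' h3' => ?_⟩
  rw [h0]
  exact Nat.find_min' hex ⟨b', l', rfl, h1', h2', h3'⟩

theorem MinRel.swap {N K : Subgroup G} {b : Bool} {l : List G} (h : MinRel N K b l) :
    MinRel K N (!b) l :=
  ⟨h.ne, alt_swap b l h.alt, h.one, fun b' l' h1 h2 h3 =>
    h.min (!b') l' h1 (alt_swap b' l' h2) h3⟩

theorem take_prod_succ (l : List G) (i : ℕ) (hi : i < l.length) :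
    (l.take (i + 1)).prod = (l.take i).prod * l.getD i 1 := by
  rw [List.take_succ_eq_append_getElem hi, List.prod_append, List.prod_singleton,
    List.getD_eq_getElem _ _ hi]

theorem take_prod_add (l : List G) (i j : ℕ) :
    (l.take (i + j)).prod = (l.take i).prod * ((l.drop i).take j).prod := by
  rw [List.take_add, List.prod_append]

/-- the initial products of a shortest relation are distinct -/
theorem MinRel.prefix_lt {N K : Subgroup G} {b : Bool} {l : List G} (h : MinRel N K b l)
    {i j : ℕ} (hij : i < j) (hj : j < l.length) : (l.take i).prod ≠ (l.take j).prod := by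
  intro he
  obtain ⟨k, rfl⟩ := Nat.exists_eq_add_of_lt hij
  rw [add_assoc, take_prod_add] at he
  have h1 : ((l.drop i).take (k + 1)).prod = 1 := left_eq_mul.1 he
  have h2 : ((l.drop i).take (k + 1)).length = k + 1 := by
    rw [List.length_take, List.length_drop]
    omega
  have h3 := h.min (typ b i) ((l.drop i).take (k + 1))
    (fun h4 => by rw [h4] at h2; simp at h2) (alt_take _ _ _ (alt_drop _ _ _ h.alt)) h1
  rw [h2] at h3
  omega

theorem MinRel.prefix_inj {N K : Subgroup G} {b : Bool} {l : List G} (h : MinRel N K b l)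
    {i j : ℕ} (hi : i < l.length) (hj : j < l.length)
    (he : (l.take i).prod = (l.take j).prod) : i = j := by
  rcases lt_trichotomy i j with h1 | h1 | h1
  · exact absurd he (h.prefix_lt h1 hj)
  · exact h1
  · exact absurd he.symm (h.prefix_lt h1 hi)

theorem MinRel.two_le {N K : Subgroup G} {b : Bool} {l : List G} (h : MinRel N K b l) :
    2 ≤ l.length := by
  match l, h with
  | [], h => exact absurd rfl h.ne
  | [g], h =>
    have h1 := h.one
    rw [List.prod_singleton] at h1
    exact absurd h1 h.alt.2.1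
  | _ :: _ :: _, _ => simp

/-- the edges of a cyclic `K` in a shortest relation are distinct -/
theorem MinRel.edge_lt {N : Subgroup G} {s : G} {b : Bool} {l : List G}
    (h : MinRel N (Subgroup.zpowers s) b l) {i j : ℕ} (hij : i < j)
    (hj : j < l.length) (hti : typ b i = false) (htj : typ b j = false) (m n : ℤ) :
    (l.take i).prod * s ^ m ≠ (l.take j).prod * s ^ n := by
  intro he
  have hi : i < l.length := hij.trans hj
  obtain ⟨k, rfl⟩ := Nat.exists_eq_add_of_lt hij
  have hk : k ≠ 0 := by
    rintro rfl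
    rw [add_zero, typ_succ, hti] at htj
    exact absurd htj (by decide)
  set seg : List G := (l.drop (i + 1)).take k with hseg
  have hlen : seg.length = k := by
    rw [hseg, List.length_take, List.length_drop]
    omega
  have hne : seg ≠ [] := fun h4 => by rw [h4] at hlen; exact hk hlen.symm
  have halt : Alt N (Subgroup.zpowers s) true seg := by
    have h1 := alt_take k _ _ (alt_drop (i + 1) _ _ h.alt)
    rw [typ_succ, hti] at h1
    exact h1
  have hg := alt_getD i b l h.alt hi
  rw [hti] at hg
  have hprod : (l.take (i + k + 1)).prod = (l.take i).prod * l.getD i 1 * seg.prod := by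
    have e : i + k + 1 = (i + 1) + k := by ring
    rw [e, take_prod_add, take_prod_succ l i hi]
  rw [hprod, mul_assoc, mul_assoc, mul_left_cancel_iff] at he
  -- `s ^ m = g * (seg.prod * s ^ n)`
  have hsp : seg.prod = (l.getD i 1)⁻¹ * s ^ (m - n) := by
    rw [zpow_sub, he]
    group
  by_cases hc : l.getD i 1 = s ^ (m - n)
  · have h1 : seg.prod = 1 := by rw [hsp, hc, inv_mul_cancel]
    have h2 := h.min true seg hne halt h1
    rw [hlen] at h2
    omega
  · have h1 : (((s ^ (m - n))⁻¹ * l.getD i 1) :: seg).prod = 1 := by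
      rw [List.prod_cons, hsp]
      group
    have h2 : Alt N (Subgroup.zpowers s) false (((s ^ (m - n))⁻¹ * l.getD i 1) :: seg) := by
      refine ⟨?_, ?_, halt⟩
      · exact (Subgroup.zpowers s).mul_mem ((Subgroup.zpowers s).inv_mem
          (Subgroup.zpow_mem_zpowers s _)) hg.1
      · intro h3
        exact hc (inv_mul_eq_one.1 h3).symm
    have h3 := h.min false _ (by simp) h2 h1
    rw [List.length_cons, hlen] at h3
    omega

end Pool.Agent.Helper74.LI
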