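import Pool.Agent.Helper74.LI.Main

/-!
# Groups generated by a connected set are tame
-/

namespace Pool.Agent.Helper74.LI

open Pool.Agent.Helper39.AH Pool.Agent.Helper52.HS

variable {G : Type} [Group G]

theorem dep_of_mem {N K : Subgroup G} {a : G} (h1 : a ∈ N) (h2 : a ∈ K) (ha : a ≠ 1) :
    Dep N K :=
  ⟨true, [a, a⁻¹], by simp, ⟨h1, ha, K.inv_mem h2, inv_ne_one.2 ha, trivial⟩, by simp⟩

theorem ne_one_left {a b : G} (h : ¬ IsCyclic (Subgroup.closure {a, b} : Subgroup G)) : a ≠ 1 := by
  rintro rfl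
  apply h
  have e : Subgroup.closure {1, b} = Subgroup.zpowers b := by
    rw [Set.insert_eq, Subgroup.closure_union, Subgroup.closure_singleton_one, bot_sup_eq,
      Subgroup.zpowers_eq_closure]
  rw [e]
  infer_instance

/-- A subgroup is tame if it has a generating set with at least two elements which is connected by
pairs that generate neither a cyclic group nor a free group of rank two. -/
theorem tame_of_connected (S : Set G) (hne : S.Nontrivial)
    (hc : ∀ a ∈ S, ∀ b ∈ S, Relation.ReflTransGen (fun x y => x ∈ S ∧ y ∈ S ∧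
      ¬ IsCyclic (Subgroup.closure {x, y} : Subgroup G) ∧
      ¬ Nonempty ((Subgroup.closure {x, y} : Subgroup G) ≃* FreeGroup Bool)) a b) :
    Tame (Subgroup.closure S) := by
  obtain ⟨a, ha, b, hb, hab⟩ := hne
  obtain ⟨c, ⟨h1, h2, h3, h4⟩, -⟩ : ∃ c, (a ∈ S ∧ c ∈ S ∧
      ¬ IsCyclic (Subgroup.closure {a, c} : Subgroup G) ∧
      ¬ Nonempty ((Subgroup.closure {a, c} : Subgroup G) ≃* FreeGroup Bool)) ∧ True := by
    rcases Relation.ReflTransGen.cases_head (hc a ha b hb) with h | ⟨c, h, -⟩
    · exact absurd h hab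
    · exact ⟨c, h, trivial⟩
  have ha1 : a ≠ 1 := ne_one_left h3
  set Y : Set (Subgroup G) := {N | Tame N ∧ a ∈ N ∧ N ≤ Subgroup.closure S} with hY
  have hYne : Y.Nonempty := by
    refine ⟨Subgroup.closure {a, c}, Tame.pair a c h3 h4, Subgroup.subset_closure (by simp), ?_⟩
    rw [Subgroup.closure_le]
    rintro x (rfl | rfl)
    · exact Subgroup.subset_closure ha
    · exact Subgroup.subset_closure h2
  have hYd : DirectedOn (· ≤ ·) Y := by
    rintro N ⟨hN, haN, hNS⟩ N' ⟨hN', haN', hNS'⟩
    exact ⟨N ⊔ N', ⟨Tame.join N N' hN hN' (dep_of_mem haN haN' ha1),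
      Subgroup.mem_sup_left haN, sup_le hNS hNS'⟩, le_sup_left, le_sup_right⟩
  have hT : Tame (sSup Y) := Tame.union Y hYne hYd fun N h => h.1
  have key : ∀ x, Relation.ReflTransGen (fun x y => x ∈ S ∧ y ∈ S ∧
      ¬ IsCyclic (Subgroup.closure {x, y} : Subgroup G) ∧
      ¬ Nonempty ((Subgroup.closure {x, y} : Subgroup G) ≃* FreeGroup Bool)) a x →
      ∃ N ∈ Y, x ∈ N := by
    intro x hx
    induction hx with
    | refl =>
      obtain ⟨N, hN⟩ := hYne
      exact ⟨N, hN, hN.2.1⟩
    | @tail x y _ hxy ih =>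
      obtain ⟨N, ⟨hN, haN, hNS⟩, hxN⟩ := ih
      obtain ⟨hx, hy, hc1, hc2⟩ := hxy
      have hxP : x ∈ Subgroup.closure {x, y} := Subgroup.subset_closure (by simp)
      have hyP : y ∈ Subgroup.closure {x, y} := Subgroup.subset_closure (by simp)
      have hP : Subgroup.closure {x, y} ≤ Subgroup.closure S := by
        rw [Subgroup.closure_le]
        rintro z (rfl | rfl)
        · exact Subgroup.subset_closure hx
        · exact Subgroup.subset_closure hy
      exact ⟨N ⊔ Subgroup.closure {x, y},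
        ⟨Tame.join _ _ hN (Tame.pair x y hc1 hc2) (dep_of_mem hxN hxP (ne_one_left hc1)),
          Subgroup.mem_sup_left haN, sup_le hNS hP⟩, Subgroup.mem_sup_right hyP⟩
  have hle : Subgroup.closure S ≤ sSup Y := by
    rw [Subgroup.closure_le]
    intro x hx
    obtain ⟨N, hN, hxN⟩ := key x (hc a ha x hx)
    exact le_sSup hN hxN
  have hge : sSup Y ≤ Subgroup.closure S := sSup_le fun N h => h.2.2
  rw [le_antisymm hle hge]
  exact hT

/-- Semistability for locally indicable groups with a connected generating set, or without free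
subgroups. -/
theorem main_connected {X R : Type} [Finite X] [Finite R] (rel : R → List (X × Bool))
    (L : Subgroup (Gp rel)) (hfin : L.FiniteIndex) (hL : LocInd L)
    (S : Set (Gp rel)) (hS : Subgroup.closure S = L) (hne : S.Nontrivial)
    (hc : ∀ a ∈ S, ∀ b ∈ S, Relation.ReflTransGen (fun x y => x ∈ S ∧ y ∈ S ∧
      ¬ IsCyclic (Subgroup.closure {x, y} : Subgroup (Gp rel)) ∧
      ¬ Nonempty ((Subgroup.closure {x, y} : Subgroup (Gp rel)) ≃* FreeGroup Bool)) a b) :
    H1Semistable rel :=
  main rel L hfin hL (hS ▸ tame_of_connected S hne hc)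

end Pool.Agent.Helper74.LI
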