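import Pool.Agent.Helper74.LI.Kill

/-!
# Project LI (MP_db811f_gt): joins of two killed subgroups
-/

set_option linter.unusedSectionVars false

namespace Pool.Agent.Helper74.LI

open Pool.Agent.Helper52.HS

variable {G : Type} [Group G]

/-- a shortest relation has even length -/
theorem MinRel.even {N K : Subgroup G} {l : List G} (h : MinRel N K true l) :
    ∃ m, l.length = 2 * m := by
  rcases Nat.even_or_odd' l.length with ⟨m, hm | hm⟩
  · exact ⟨m, hm⟩
  · exfalso
    have h2 := h.two_le
    obtain ⟨n, rfl⟩ : ∃ n, m = n + 1 := ⟨m - 1, by omega⟩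
    match l, h with
    | [], h => exact absurd rfl h.ne
    | g :: l', h =>
      rw [List.length_cons] at hm
      have hlen : l'.length = 2 * n + 2 := by omega
      have hne : l' ≠ [] := fun h4 => by rw [h4] at hlen; simp at hlen
      obtain ⟨mid, x, rfl⟩ : ∃ (mid : List G) (x : G), l' = mid ++ [x] :=
        ⟨l'.dropLast, l'.getLast hne, (List.dropLast_append_getLast hne).symm⟩
      rw [List.length_append, List.length_singleton] at hlen
      have hmid : mid.length = 2 * n + 1 := by omega
      have hmidne : mid ≠ [] := fun h4 => by rw [h4] at hmid; simp at hmid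
      have halt := h.alt
      have hg : g ∈ N := halt.1
      have hx := alt_getD (2 * n + 2) true (g :: (mid ++ [x])) halt (by
        rw [List.length_cons, List.length_append, List.length_singleton]
        omega)
      have e1 : typ true (2 * n + 2) = true := by rw [typ_two, typ_even]
      have e2 : (g :: (mid ++ [x])).getD (2 * n + 2) 1 = x := by
        rw [show 2 * n + 2 = (2 * n + 1) + 1 from rfl, List.getD_cons_succ,
          List.getD_append_right _ _ _ _ (by omega), hmid]
        simp
      rw [e1, e2] at hx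
      have hmidalt : Alt N K false mid := by
        have h3 := alt_take (2 * n + 1) false (mid ++ [x]) halt.2.2
        rw [List.take_append_of_le_length (by omega), List.take_of_length_le (by omega)] at h3
        exact h3
      have hone := h.one
      rw [List.prod_cons, List.prod_append, List.prod_singleton] at hone
      have hmp : mid.prod = (x * g)⁻¹ := by
        have h3 : g * (mid.prod * x) = 1 := hone
        have h4 : mid.prod * x = g⁻¹ := eq_inv_of_mul_eq_one_right h3
        rw [mul_inv_rev, ← h4, mul_inv_cancel_right]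
      by_cases hc : x * g = 1
      · have h3 := h.min false mid hmidne hmidalt (by rw [hmp, hc, inv_one])
        rw [List.length_cons, List.length_append, List.length_singleton] at h3
        omega
      · have h3 := h.min true ((x * g) :: mid) (by simp)
          ⟨N.mul_mem hx.1 hg, hc, hmidalt⟩ (by rw [List.prod_cons, hmp, mul_inv_cancel])
        rw [List.length_cons, List.length_cons, List.length_append, List.length_singleton] at h3
        omega

theorem sum_range_two {A : Type} [AddCommMonoid A] (g : ℕ → A) (m : ℕ) :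
    ∑ i ∈ Finset.range (2 * m), g i = ∑ i ∈ Finset.range m, (g (2 * i) + g (2 * i + 1)) := by
  induction m with
  | zero => simp
  | succ m ih =>
    rw [Nat.mul_succ, Finset.sum_range_succ, Finset.sum_range_succ, ih, Finset.sum_range_succ]
    rw [add_assoc]

theorem kill_join_core (P : FinPres G) {L N K : Subgroup G} (hL : LocInd L) (hN : N ≤ L)
    (hK : K ≤ L) (hkN : Kill P N) (hkK : Kill P K) {l : List G} (h : MinRel N K true l) :
    Kill P (N ⊔ K) := by
  classical
  obtain ⟨m, hm⟩ := h.even
  have h2 := h.two_le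
  intro x hx hb
  rw [Subgroup.sup_eq_closure] at hx
  have hx' : x ∈ Sp P (⊤ : AddSubgroup (G → ℤ)) N Set.univ ⊔
      Sp P (⊤ : AddSubgroup (G → ℤ)) K Set.univ := by
    refine mem_Sp_of_gen P _ _ ?_ hx
    rintro g (hg | hg) F
    · exact AddSubgroup.mem_sup_left
        (tt_mem_Sp hg (AddSubgroup.mem_top _) fun g' hg' => absurd (Set.mem_univ g') hg')
    · exact AddSubgroup.mem_sup_right
        (tt_mem_Sp hg (AddSubgroup.mem_top _) fun g' hg' => absurd (Set.mem_univ g') hg')
  obtain ⟨x₁, hx₁, x₂, hx₂, rfl⟩ := AddSubgroup.mem_sup.1 hx'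
  have hpL : ∀ i, (l.take i).prod ∈ L := by
    intro i
    refine L.list_prod_mem fun x hx => ?_
    obtain ⟨n, hn, rfl⟩ := List.getElem_of_mem hx
    rw [List.getElem_take]
    have hn' : n < l.length := by
      rw [List.length_take] at hn
      omega
    have h3 := (alt_getD n true l h.alt hn').1
    rw [List.getD_eq_getElem _ _ hn'] at h3
    cases htn : typ true n
    · rw [htn] at h3
      exact hK h3
    · rw [htn] at h3
      exact hN h3
  obtain ⟨E, hE⟩ := sur L hL _ (Finset.range l.length) rfl
    ⟨0, by rw [Finset.mem_range]; omega⟩ (fun i => (l.take i).prod) (fun i _ => hpL i)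
    (fun i hi j hj he => h.prefix_inj (Finset.mem_range.1 hi) (Finset.mem_range.1 hj) he)
    (fun i => if i % 2 = 0 then -1 else 1)
    (fun i _ => by split_ifs; exacts [Or.inr rfl, Or.inl rfl]) (bdQ P ⊤ x₁)
  -- the two parts of the loop
  set y₁ : Qt P (⊤ : AddSubgroup (G → ℤ)) := ∑ i ∈ Finset.range m,
    tt P ⊤ (l.getD (2 * i) 1) (act (l.take (2 * i)).prod E) with hy₁
  set y₂ : Qt P (⊤ : AddSubgroup (G → ℤ)) := ∑ i ∈ Finset.range m,
    tt P ⊤ (l.getD (2 * i + 1) 1) (act (l.take (2 * i + 1)).prod E) with hy₂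
  have hy : y₁ + y₂ = 0 := by
    have h1 := tt_list (P := P) l E
    rw [h.one, tt_one inv_top (AddSubgroup.mem_top E), hm, sum_range_two,
      Finset.sum_add_distrib] at h1
    exact h1.symm
  have hmem₁ : y₁ ∈ Sp P (⊤ : AddSubgroup (G → ℤ)) N Set.univ := by
    refine AddSubgroup.sum_mem _ fun i hi => ?_
    rw [Finset.mem_range] at hi
    have h3 := (alt_getD (2 * i) true l h.alt (by omega)).1
    rw [typ_even] at h3
    exact tt_mem_Sp h3 (AddSubgroup.mem_top _) fun g hg => absurd (Set.mem_univ g) hg
  have hmem₂ : y₂ ∈ Sp P (⊤ : AddSubgroup (G → ℤ)) K Set.univ := by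
    refine AddSubgroup.sum_mem _ fun i hi => ?_
    rw [Finset.mem_range] at hi
    have h3 := (alt_getD (2 * i + 1) true l h.alt (by omega)).1
    rw [typ_odd] at h3
    exact tt_mem_Sp h3 (AddSubgroup.mem_top _) fun g hg => absurd (Set.mem_univ g) hg
  have hbd : bdQ P ⊤ y₁ = bdQ P ⊤ x₁ := by
    rw [← hE, W_eq, hm, sum_range_two, hy₁, map_sum]
    refine Finset.sum_congr rfl fun i hi => ?_
    rw [Finset.mem_range] at hi
    rw [bdQ_tt, act_act, ← take_prod_succ l (2 * i) (by omega)]
    have e1 : (2 * i) % 2 = 0 := by omega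
    have e2 : ¬ ((2 * i + 1) % 2 = 0) := by omega
    rw [if_pos e1, if_neg e2]
    simp only [neg_smul, one_smul]
    abel
  have e1 : x₁ - y₁ = 0 := by
    refine hkN _ (AddSubgroup.sub_mem _ hx₁ hmem₁) ?_
    rw [map_sub, hbd, sub_self]
  have e2 : x₂ - y₂ = 0 := by
    refine hkK _ (AddSubgroup.sub_mem _ hx₂ hmem₂) ?_
    have h3 : bdQ P ⊤ y₂ = -bdQ P ⊤ y₁ := by
      rw [← map_neg, eq_neg_of_add_eq_zero_right hy]
    rw [map_sub, h3, hbd, sub_neg_eq_add, ← map_add, add_comm x₂ x₁, hb]
  rw [sub_eq_zero] at e1 e2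
  rw [e1, e2, hy]

theorem kill_join_dep (P : FinPres G) {L N K : Subgroup G} (hL : LocInd L) (hN : N ≤ L)
    (hK : K ≤ L) (hkN : Kill P N) (hkK : Kill P K) (hd : Dep N K) : Kill P (N ⊔ K) := by
  obtain ⟨b, l, h⟩ := exists_min hd
  cases b
  · have h1 := h.swap
    rw [sup_comm]
    exact kill_join_core P hL hK hN hkK hkN h1
  · exact kill_join_core P hL hN hK hkN hkK h

end Pool.Agent.Helper74.LI
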