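import Pool.Agent.Helper74.LI.Alt
import Pool.Agent.Helper52.HS.KillA

/-!
# Project LI (MP_db811f_gt): dependent joins of killed subgroups are killed
-/

set_option linter.unusedSectionVars false

namespace Pool.Agent.Helper74.LI

open Pool.Agent.Helper52.HS

variable {G : Type} [Group G]

/-- a nontrivial element of a locally indicable group has infinite order -/
theorem zpow_eq_one {L : Subgroup G} (hL : LocInd L) {s : G} (hs : s ∈ L) (h1 : s ≠ 1) (n : ℤ)
    (hn : s ^ n = 1) : n = 0 := by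
  have hH : Subgroup.zpowers s ≤ L := by
    rw [Subgroup.zpowers_le]
    exact hs
  have hfg : (Subgroup.zpowers s).FG := ⟨{s}, by
    rw [Finset.coe_singleton, Subgroup.zpowers_eq_closure]⟩
  have hne : Subgroup.zpowers s ≠ ⊥ := by
    rw [Ne, Subgroup.zpowers_eq_bot]
    exact h1
  obtain ⟨f, hf⟩ := hL _ hH hfg hne
  by_contra hn0
  apply hf
  have hs1 : f ⟨s, Subgroup.mem_zpowers s⟩ = 1 := by
    have h2 : f (⟨s, Subgroup.mem_zpowers s⟩ ^ n) = 1 := by
      have h3 : (⟨s, Subgroup.mem_zpowers s⟩ : Subgroup.zpowers s) ^ n = 1 := Subtype.ext hn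
      rw [h3, map_one]
    rw [map_zpow] at h2
    have h4 : n * (f ⟨s, Subgroup.mem_zpowers s⟩).toAdd = 0 := by
      have h5 := congrArg Multiplicative.toAdd h2
      rw [toAdd_zpow, toAdd_one, smul_eq_mul] at h5
      exact h5
    rcases mul_eq_zero.1 h4 with h5 | h5
    · exact absurd h5 hn0
    · exact toAdd_eq_zero.1 h5
  ext ⟨x, hx⟩
  obtain ⟨k, rfl⟩ := Subgroup.mem_zpowers_iff.1 hx
  have h6 : (⟨s ^ k, hx⟩ : Subgroup.zpowers s) = ⟨s, Subgroup.mem_zpowers s⟩ ^ k := rfl
  rw [h6, map_zpow, hs1, one_zpow]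
  rfl

variable {P : FinPres G}

/-- the class of a path, letter by letter -/
theorem tt_list (l : List G) (E : G → ℤ) : tt P (⊤ : AddSubgroup (G → ℤ)) l.prod E =
    ∑ i ∈ Finset.range l.length, tt P ⊤ (l.getD i 1) (act (l.take i).prod E) := by
  induction l generalizing E with
  | nil => simp [tt_one inv_top (AddSubgroup.mem_top E)]
  | cons g l ih =>
    rw [List.prod_cons, tt_mul inv_top g l.prod (AddSubgroup.mem_top E), ih,
      List.length_cons, Finset.sum_range_succ']
    rw [add_comm]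
    congr 1
    · refine Finset.sum_congr rfl fun i _ => ?_
      rw [List.getD_cons_succ, List.take_succ_cons, List.prod_cons, act_act]
    · simp

/-- the exponents of the edges of `s ^ k` -/
noncomputable def J (k : ℤ) : Finset ℤ := if 0 ≤ k then Finset.Ico 0 k else Finset.Ico k 0

/-- the orientation of the edges of `s ^ k` -/
def sg (k : ℤ) : ℤ := if 0 ≤ k then 1 else -1

theorem tt_pow (s : G) (n : ℕ) (F : G → ℤ) : tt P (⊤ : AddSubgroup (G → ℤ)) (s ^ n) F =
    ∑ j ∈ Finset.range n, tt P ⊤ s (act (s ^ j) F) := by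
  induction n with
  | zero => simp [tt_one inv_top (AddSubgroup.mem_top F)]
  | succ n ih =>
    rw [pow_succ, tt_mul inv_top _ _ (AddSubgroup.mem_top F), ih, Finset.sum_range_succ]

theorem tt_zpow (s : G) (k : ℤ) (F : G → ℤ) : tt P (⊤ : AddSubgroup (G → ℤ)) (s ^ k) F =
    ∑ j ∈ J k, sg k • tt P ⊤ s (act (s ^ j) F) := by
  by_cases hk : 0 ≤ k
  · obtain ⟨n, rfl⟩ := Int.eq_ofNat_of_zero_le hk
    rw [zpow_natCast, tt_pow, J, if_pos hk, sg, if_pos hk]
    refine Finset.sum_bij (fun j _ => (j : ℤ)) ?_ ?_ ?_ ?_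
    · intro j hj
      rw [Finset.mem_range] at hj
      rw [Finset.mem_Ico]
      omega
    · intro a _ b _ hab
      exact_mod_cast hab
    · intro j hj
      rw [Finset.mem_Ico] at hj
      exact ⟨j.toNat, by rw [Finset.mem_range]; omega, by omega⟩
    · intro j _
      rw [one_smul, zpow_natCast]
  · obtain ⟨n, rfl⟩ : ∃ n : ℕ, k = -(n : ℤ) := ⟨(-k).toNat, by omega⟩
    rw [zpow_neg, zpow_natCast, tt_inv inv_top _ (AddSubgroup.mem_top F), tt_pow, J, if_neg hk,
      sg, if_neg hk, ← Finset.sum_neg_distrib]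
    refine Finset.sum_bij (fun j _ => (j : ℤ) - n) ?_ ?_ ?_ ?_
    · intro j hj
      rw [Finset.mem_range] at hj
      rw [Finset.mem_Ico]
      omega
    · intro a _ b _ hab
      have : (a : ℤ) = b := by linarith
      exact_mod_cast this
    · intro j hj
      rw [Finset.mem_Ico] at hj
      exact ⟨(j + n).toNat, by rw [Finset.mem_range]; omega, by omega⟩
    · intro j _
      rw [neg_smul, one_smul, act_act]
      congr 3
      rw [sub_eq_neg_add, zpow_add, zpow_neg, zpow_natCast, zpow_natCast]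

/-- the index set of the edges of the cyclic factor of a relation -/
noncomputable def Idx (b : Bool) (l : List G) (k : ℕ → ℤ) : Finset (Σ _ : ℕ, ℤ) :=
  ((Finset.range l.length).filter fun i => typ b i = false).sigma fun i => J (k i)

/-- the edges -/
def edge (s : G) (l : List G) (p : Σ _ : ℕ, ℤ) : G := (l.take p.1).prod * s ^ p.2

/-- the sum of the classes of the `K`-letters, `K = ⟨s⟩` -/
theorem sum_edges (s : G) (b : Bool) (l : List G) (k : ℕ → ℤ)
    (hk : ∀ i, i < l.length → typ b i = false → l.getD i 1 = s ^ k i) (E : G → ℤ) :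
    ∑ i ∈ (Finset.range l.length).filter (fun i => typ b i = false),
      tt P (⊤ : AddSubgroup (G → ℤ)) (l.getD i 1) (act (l.take i).prod E) =
    tt P ⊤ s (W (Idx b l k) (edge s l) (fun p => sg (k p.1)) E) := by
  rw [W_eq, tt_sum, Idx, Finset.sum_sigma]
  refine Finset.sum_congr rfl fun i hi => ?_
  rw [Finset.mem_filter, Finset.mem_range] at hi
  rw [hk i hi.1 hi.2, tt_zpow]
  refine Finset.sum_congr rfl fun j _ => ?_
  have h1 : tt P (⊤ : AddSubgroup (G → ℤ)) s (sg (k i) • act (edge s l ⟨i, j⟩) E) =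
      sg (k i) • tt P ⊤ s (act (edge s l ⟨i, j⟩) E) := map_zsmul (ttH P ⊤ s) _ _
  rw [h1, act_act]
  rfl

theorem sg_unit (k : ℤ) : sg k = 1 ∨ sg k = -1 := by
  unfold sg
  split_ifs
  · exact Or.inl rfl
  · exact Or.inr rfl

theorem J_nonempty {k : ℤ} (hk : k ≠ 0) : (J k).Nonempty := by
  unfold J
  split_ifs with h
  · exact ⟨0, by rw [Finset.mem_Ico]; omega⟩
  · exact ⟨k, by rw [Finset.mem_Ico]; omega⟩

/-- the data of the edges of `s` in a shortest relation between `N` and `⟨s⟩` -/
theorem edges_sur {L N : Subgroup G} (hL : LocInd L) {s : G} (hs : s ∈ L) (hN : N ≤ L)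
    {b : Bool} {l : List G} (h : MinRel N (Subgroup.zpowers s) b l) (k : ℕ → ℤ)
    (hk : ∀ i, i < l.length → typ b i = false → l.getD i 1 = s ^ k i) :
    (Idx b l k).Nonempty ∧ (∀ p ∈ Idx b l k, edge s l p ∈ L) ∧
    (∀ p ∈ Idx b l k, ∀ q ∈ Idx b l k, edge s l p = edge s l q → p = q) := by
  have hzL : Subgroup.zpowers s ≤ L := by
    rw [Subgroup.zpowers_le]
    exact hs
  have h2 := h.two_le
  -- a letter of type `false`
  obtain ⟨i, hi, hti⟩ : ∃ i, i < l.length ∧ typ b i = false := by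
    cases b
    · exact ⟨0, by omega, rfl⟩
    · exact ⟨1, by omega, rfl⟩
  have hg := alt_getD i b l h.alt hi
  have hki : k i ≠ 0 := by
    intro h0
    apply hg.2
    rw [hk i hi hti, h0, zpow_zero]
  have hsne : s ≠ 1 := by
    rintro rfl
    apply hg.2
    rw [hk i hi hti, one_zpow]
  refine ⟨?_, ?_, ?_⟩
  · obtain ⟨j, hj⟩ := J_nonempty hki
    exact ⟨⟨i, j⟩, Finset.mem_sigma.2 ⟨Finset.mem_filter.2 ⟨Finset.mem_range.2 hi, hti⟩, hj⟩⟩
  · rintro ⟨i, j⟩ -
    refine L.mul_mem (L.list_prod_mem fun x hx => ?_) (L.zpow_mem hs j)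
    obtain ⟨n, hn, rfl⟩ := List.getElem_of_mem hx
    rw [List.getElem_take]
    have hn' : n < l.length := by
      rw [List.length_take] at hn
      omega
    have h3 := (alt_getD n b l h.alt hn').1
    rw [List.getD_eq_getElem _ _ hn'] at h3
    cases htn : typ b n
    · rw [htn] at h3
      exact hzL h3
    · rw [htn] at h3
      exact hN h3
  · rintro ⟨i, m⟩ hp ⟨j, n⟩ hq he
    rw [Idx, Finset.mem_sigma, Finset.mem_filter, Finset.mem_range] at hp hq
    rcases lt_trichotomy i j with h3 | h3 | h3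
    · exact absurd he (h.edge_lt h3 hq.1.1 hp.1.2 hq.1.2 m n)
    · subst h3
      have h4 : s ^ m = s ^ n := mul_left_cancel he
      have h5 : s ^ (m - n) = 1 := by rw [zpow_sub, h4, mul_inv_cancel]
      have h6 := zpow_eq_one hL hs hsne _ h5
      have h7 : m = n := by omega
      rw [h7]
    · exact absurd he.symm (h.edge_lt h3 hp.1.1 hq.1.2 hp.1.2 n m)

theorem kill_adj (P : FinPres G) {L N : Subgroup G} (hL : LocInd L) {s : G} (hs : s ∈ L)
    (hN : N ≤ L) (hk : Kill P N) (hd : Dep N (Subgroup.zpowers s)) :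
    Kill P (N ⊔ Subgroup.zpowers s) := by
  classical
  obtain ⟨b, l, h⟩ := exists_min hd
  have hex : ∀ i, i < l.length → typ b i = false → ∃ k : ℤ, l.getD i 1 = s ^ k := by
    intro i hi hti
    have h1 := (alt_getD i b l h.alt hi).1
    rw [hti] at h1
    obtain ⟨k, hk⟩ := Subgroup.mem_zpowers_iff.1 h1
    exact ⟨k, hk.symm⟩
  let k : ℕ → ℤ := fun i => if hi : i < l.length ∧ typ b i = false then
    (hex i hi.1 hi.2).choose else 0
  have hkk : ∀ i, i < l.length → typ b i = false → l.getD i 1 = s ^ k i := by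
    intro i hi hti
    simp only [k, dif_pos (And.intro hi hti)]
    exact (hex i hi hti).choose_spec
  obtain ⟨e1, e2, e3⟩ := edges_sur hL hs hN h k hkk
  -- every `tt s F` is in the span of `N`
  have key : ∀ F : G → ℤ, tt P ⊤ s F ∈ Sp P (⊤ : AddSubgroup (G → ℤ)) N Set.univ := by
    intro F
    obtain ⟨E, hE⟩ := sur L hL _ (Idx b l k) rfl e1 (edge s l) e2 e3 (fun p => sg (k p.1))
      (fun p _ => sg_unit _) F
    have h1 := tt_list (P := P) l E
    rw [h.one, tt_one inv_top (AddSubgroup.mem_top E),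
      ← Finset.sum_filter_add_sum_filter_not (Finset.range l.length)
        (fun i => typ b i = false), sum_edges s b l k hkk E, hE] at h1
    rw [eq_neg_of_add_eq_zero_left h1.symm]
    refine AddSubgroup.neg_mem _ (AddSubgroup.sum_mem _ fun i hi => ?_)
    rw [Finset.mem_filter, Finset.mem_range] at hi
    have h3 := (alt_getD i b l h.alt hi.1).1
    have h4 : typ b i = true := by simpa using hi.2
    rw [h4] at h3
    exact tt_mem_Sp h3 (AddSubgroup.mem_top _) fun g hg => absurd (Set.mem_univ g) hg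
  intro x hx hb
  refine hk x ?_ hb
  have hcl : N ⊔ Subgroup.zpowers s = Subgroup.closure ((N : Set G) ∪ {s}) := by
    rw [Subgroup.closure_union, Subgroup.closure_eq, Subgroup.zpowers_eq_closure]
  rw [hcl] at hx
  refine mem_Sp_of_gen P _ _ ?_ hx
  rintro g (hg | hg) F
  · exact tt_mem_Sp hg (AddSubgroup.mem_top _) fun g' hg' => absurd (Set.mem_univ g') hg'
  · rw [Set.mem_singleton_iff] at hg
    subst hg
    exact key F

end Pool.Agent.Helper74.LI
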