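import Pool.Agent.Helper74.LI.Kill

/-!
# Project LI (MP_db811f_gt): two-generator subgroups

If `θ : ⟨a, b⟩ → ℤ` has `θ a = 0` and `θ b ≠ 0` and `a`, `b` are dependent then `⟨a⟩` is killed.
-/

set_option linter.unusedSectionVars false

namespace Pool.Agent.Helper74.LI

open Pool.Agent.Helper52.HS

variable {G : Type} [Group G]

theorem typ_not (b : Bool) (n : ℕ) : typ (!b) n = !(typ b n) := by
  rw [← typ_succ]
  rfl

/-- `E` vanishes on all low levels -/
def BB (lam : G → ℤ) (E : G → ℤ) : Prop := ∃ c : ℤ, ∀ x, lam x < c → E x = 0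

theorem BB_W {ι : Type} {lam : G → ℤ} (I : Finset ι) (f : ι → G) (ε : ι → ℤ) (t : ι → ℤ)
    (ht : ∀ i ∈ I, ∀ x, lam (x * (f i)⁻¹) = lam x - t i) {E : G → ℤ} (hE : BB lam E) :
    BB lam (W I f ε E) := by
  classical
  obtain ⟨c, hc⟩ := hE
  obtain ⟨m, hm⟩ := (I.image fun i => -t i).exists_le
  refine ⟨c - m, fun x hx => Finset.sum_eq_zero fun i hi => ?_⟩
  rw [hc, mul_zero]
  rw [ht i hi]
  have := hm (-t i) (Finset.mem_image_of_mem (fun i => -t i) hi)
  omega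

theorem prefix_mem {N K Q : Subgroup G} (hN : N ≤ Q) (hK : K ≤ Q) {b : Bool} {l : List G}
    (h : Alt N K b l) (i : ℕ) : (l.take i).prod ∈ Q := by
  refine Q.list_prod_mem fun x hx => ?_
  obtain ⟨n, hn, rfl⟩ := List.getElem_of_mem hx
  rw [List.getElem_take]
  have hn' : n < l.length := by
    rw [List.length_take] at hn
    omega
  have h3 := (alt_getD n b l h hn').1
  rw [List.getD_eq_getElem _ _ hn'] at h3
  cases htn : typ b n
  · rw [htn] at h3
    exact hK h3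
  · rw [htn] at h3
    exact hN h3

theorem exists_exp {N : Subgroup G} {s : G} {b : Bool} {l : List G}
    (h : Alt N (Subgroup.zpowers s) b l) :
    ∃ k : ℕ → ℤ, ∀ i, i < l.length → typ b i = false → l.getD i 1 = s ^ k i := by
  classical
  have hex : ∀ i, ∃ k : ℤ, i < l.length → typ b i = false → l.getD i 1 = s ^ k := by
    intro i
    by_cases hi : i < l.length ∧ typ b i = false
    · have h1 := (alt_getD i b l h hi.1).1
      rw [hi.2] at h1
      obtain ⟨k, hk⟩ := Subgroup.mem_zpowers_iff.1 h1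
      exact ⟨k, fun _ _ => hk.symm⟩
    · exact ⟨0, fun h1 h2 => absurd ⟨h1, h2⟩ hi⟩
  choose k hk using hex
  exact ⟨k, hk⟩

theorem line_core (P : FinPres G) {L Q : Subgroup G} (hL : LocInd L) {a b : G} (ha : a ∈ L)
    (hb : b ∈ L) (haQ : a ∈ Q) (hbQ : b ∈ Q) (θ : Q →* Multiplicative ℤ) (lam : G → ℤ)
    (hlam : ∀ (x : G) (h : Q), lam (x * h) = lam x + (θ h).toAdd)
    (h1 : (θ ⟨b, hbQ⟩).toAdd ≠ 0) {b₀ : Bool} {l : List G}
    (h : MinRel (Subgroup.zpowers b) (Subgroup.zpowers a) b₀ l) (F : G → ℤ)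
    (hF : act a F = F) (hBF : BB lam F) : tt P (⊤ : AddSubgroup (G → ℤ)) a F = 0 := by
  classical
  have hzbL : Subgroup.zpowers b ≤ L := by rw [Subgroup.zpowers_le]; exact hb
  have hzaL : Subgroup.zpowers a ≤ L := by rw [Subgroup.zpowers_le]; exact ha
  have hzbQ : Subgroup.zpowers b ≤ Q := by rw [Subgroup.zpowers_le]; exact hbQ
  have hzaQ : Subgroup.zpowers a ≤ Q := by rw [Subgroup.zpowers_le]; exact haQ
  have hlev : ∀ (u : G) (hu : u ∈ Q) (x : G), lam (x * u⁻¹) = lam x - (θ ⟨u, hu⟩).toAdd := by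
    intro u hu x
    have e := hlam (x * u⁻¹) ⟨u, hu⟩
    have e2 : x * u⁻¹ * ((⟨u, hu⟩ : Q) : G) = x := inv_mul_cancel_right x u
    rw [e2] at e
    omega
  obtain ⟨k, hk⟩ := exists_exp h.alt
  obtain ⟨k', hk'⟩ := exists_exp h.swap.alt
  obtain ⟨e1, e2, e3⟩ := edges_sur hL ha hzbL h k hk
  have hedge : ∀ (s : G) (hs : s ∈ Q) (p : Σ _ : ℕ, ℤ), edge s l p ∈ Q := fun s hs p =>
    Q.mul_mem (prefix_mem hzbQ hzaQ h.alt p.1) (Q.zpow_mem hs p.2)
  let t : (Σ _ : ℕ, ℤ) → ℤ := fun p => (θ ⟨edge a l p, hedge a haQ p⟩).toAdd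
  have ht : ∀ p ∈ Idx b₀ l k, ∀ x, lam (x * (edge a l p)⁻¹) = lam x - t p :=
    fun p _ x => hlev _ _ x
  obtain ⟨mn, hmn, hmin⟩ : ∃ mn : ℤ, (∃ p ∈ Idx b₀ l k, t p = mn) ∧
      ∀ p ∈ Idx b₀ l k, mn ≤ t p := by
    have hne : ((Idx b₀ l k).image t).Nonempty := e1.image t
    exact ⟨_, Finset.mem_image.1 (Finset.min'_mem _ hne), fun p hp =>
      Finset.min'_le _ _ (Finset.mem_image_of_mem _ hp)⟩
  obtain ⟨c, hc⟩ := hBF
  obtain ⟨p0, hp0, htp0⟩ := hmn
  obtain ⟨E, hE0, hE⟩ := one_sided (Idx b₀ l k) (edge a l) (fun p => sg (k p.1)) lam t ht mn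
    hmin (fun F => sur L hL _ ((Idx b₀ l k).filter fun p => t p = mn) rfl
      ⟨p0, Finset.mem_filter.2 ⟨hp0, htp0⟩⟩ (edge a l)
      (fun p hp => e2 p (Finset.mem_filter.1 hp).1)
      (fun p hp q hq => e3 p (Finset.mem_filter.1 hp).1 q (Finset.mem_filter.1 hq).1)
      (fun p => sg (k p.1)) (fun _ _ => sg_unit _) F) c F hc
  -- the loop
  have hloop := tt_list (P := P) l E
  rw [h.one, tt_one inv_top (AddSubgroup.mem_top E),
    ← Finset.sum_filter_add_sum_filter_not (Finset.range l.length)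
      (fun i => typ b₀ i = false), sum_edges a b₀ l k hk E, hE] at hloop
  have hfil : ((Finset.range l.length).filter fun i => ¬ typ b₀ i = false) =
      (Finset.range l.length).filter fun i => typ (!b₀) i = false := by
    refine Finset.filter_congr fun i _ => ?_
    rw [typ_not]
    simp
  rw [hfil, sum_edges b (!b₀) l k' hk' E] at hloop
  set E₂ : G → ℤ := W (Idx (!b₀) l k') (edge b l) (fun p => sg (k' p.1)) E with hE₂
  have hB₂ : BB lam E₂ :=
    BB_W _ _ _ (fun p => (θ ⟨edge b l p, hedge b hbQ p⟩).toAdd) (fun p _ x => hlev _ _ x)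
      ⟨_, hE0⟩
  have hinv : act b E₂ = E₂ := by
    have h3 := congrArg (bdQ P ⊤) hloop
    rw [map_zero, map_add, bdQ_tt, bdQ_tt, hF, sub_self, zero_add] at h3
    exact (sub_eq_zero.1 h3.symm)
  have hz : E₂ = 0 := by
    have hn : ∀ (n : ℕ) (x : G), E₂ (x * b ^ n) = E₂ x ∧ E₂ (x * (b ^ n)⁻¹) = E₂ x := by
      intro n
      induction n with
      | zero => intro x; simp
      | succ n ih =>
        intro x
        have h4 : ∀ y, E₂ (y * b⁻¹) = E₂ y := fun y => congrFun hinv y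
        constructor
        · have h5 := h4 (x * b ^ (n + 1))
          rw [← h5, pow_succ, ← mul_assoc, mul_inv_cancel_right]
          exact (ih x).1
        · rw [pow_succ', mul_inv_rev, ← mul_assoc]
          have h6 : x * (b ^ n)⁻¹ * b⁻¹ = x * (b ^ n)⁻¹ * b⁻¹ := rfl
          rw [h4]
          exact (ih x).2
    obtain ⟨d, hd⟩ := hB₂
    funext x
    set β : ℤ := (θ ⟨b, hbQ⟩).toAdd with hβ
    have hlb : ∀ (n : ℕ) (x : G), lam (x * b ^ n) = lam x + n * β ∧
        lam (x * (b ^ n)⁻¹) = lam x - n * β := by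
      intro n x
      have e4 : (θ ⟨b ^ n, Q.pow_mem hbQ n⟩).toAdd = n * β := by
        have e5 : (⟨b ^ n, Q.pow_mem hbQ n⟩ : Q) = ⟨b, hbQ⟩ ^ n := rfl
        rw [e5, map_pow, toAdd_pow, nsmul_eq_mul]
      constructor
      · have e5 := hlam x ⟨b ^ n, Q.pow_mem hbQ n⟩
        rw [e4] at e5
        exact e5
      · rw [hlev _ (Q.pow_mem hbQ n), e4]
    obtain ⟨n, hn'⟩ : ∃ n : ℕ, lam x - d < n := ⟨(lam x - d).toNat + 1, by push_cast; omega⟩
    rcases lt_or_gt_of_ne h1 with h5 | h5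
    · rw [← (hn n x).1]
      refine hd _ ?_
      rw [(hlb n x).1]
      have h6 : (n : ℤ) * β ≤ n * (-1) :=
        mul_le_mul_of_nonneg_left (by omega) (Int.natCast_nonneg n)
      linarith
    · rw [← (hn n x).2]
      refine hd _ ?_
      rw [(hlb n x).2]
      have h6 : (n : ℤ) * 1 ≤ n * β :=
        mul_le_mul_of_nonneg_left (by omega) (Int.natCast_nonneg n)
      linarith
  rw [hz, tt_zero, add_zero] at hloop
  exact hloop.symm

theorem kill_line (P : FinPres G) {L Q : Subgroup G} (hL : LocInd L) {a b : G} (ha : a ∈ L)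
    (hb : b ∈ L) (haQ : a ∈ Q) (hbQ : b ∈ Q) (θ : Q →* Multiplicative ℤ)
    (h0 : θ ⟨a, haQ⟩ = 1) (h1 : θ ⟨b, hbQ⟩ ≠ 1)
    (hd : Dep (Subgroup.zpowers b) (Subgroup.zpowers a)) :
    Kill P (Subgroup.zpowers a) := by
  classical
  obtain ⟨lam, hlam⟩ := exists_level Q θ
  obtain ⟨b₀, l, h⟩ := exists_min hd
  have h1' : (θ ⟨b, hbQ⟩).toAdd ≠ 0 := fun h2 => h1 (toAdd_eq_zero.1 h2)
  intro x hx hbx
  have hx' : x ∈ (ttH P (⊤ : AddSubgroup (G → ℤ)) a).range := by
    rw [Subgroup.zpowers_eq_closure] at hx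
    refine mem_Sp_of_gen P _ _ ?_ hx
    intro g hg F
    rw [Set.mem_singleton_iff] at hg
    subst hg
    exact ⟨F, rfl⟩
  obtain ⟨F, rfl⟩ := hx'
  rw [ttH_apply] at hbx ⊢
  rw [bdQ_tt, sub_eq_zero] at hbx
  have hla : ∀ x, lam (x * a⁻¹) = lam x := by
    intro x
    have e := hlam (x * a⁻¹) ⟨a, haQ⟩
    have e2 : x * a⁻¹ * ((⟨a, haQ⟩ : Q) : G) = x := inv_mul_cancel_right x a
    rw [e2, h0, toAdd_one, add_zero] at e
    exact e.symm
  have hFa : ∀ x, F (x * a⁻¹) = F x := fun x => congrFun hbx x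
  have hsplit : F = (fun x => if lam x < 0 then 0 else F x) +
      fun x => if lam x < 0 then F x else 0 := by
    funext x
    by_cases hx : lam x < 0 <;> simp [hx]
  rw [hsplit, tt_add]
  have e1 : tt P (⊤ : AddSubgroup (G → ℤ)) a (fun x => if lam x < 0 then 0 else F x) = 0 := by
    refine line_core P hL ha hb haQ hbQ θ lam hlam h1' h _ ?_ ⟨0, fun x hx => if_pos hx⟩
    funext x
    change (if lam (x * a⁻¹) < 0 then 0 else F (x * a⁻¹)) = _
    rw [hla, hFa]
  have e2 : tt P (⊤ : AddSubgroup (G → ℤ)) a (fun x => if lam x < 0 then F x else 0) = 0 := by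
    refine line_core P hL ha hb haQ hbQ θ⁻¹ (fun x => -lam x) (fun x h => ?_) ?_ h _ ?_
      ⟨1, fun x hx => if_neg (by have hx' : -lam x < 1 := hx; omega)⟩
    · rw [MonoidHom.inv_apply, toAdd_inv, hlam]
      ring
    · rw [MonoidHom.inv_apply, toAdd_inv]
      omega
    · funext x
      change (if lam (x * a⁻¹) < 0 then F (x * a⁻¹) else 0) = _
      rw [hla, hFa]
  rw [e1, e2, add_zero]

/-- dependent pairs with such a homomorphism generate killed subgroups -/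
theorem kill_pair (P : FinPres G) {L Q : Subgroup G} (hL : LocInd L) {a b : G} (ha : a ∈ L)
    (hb : b ∈ L) (haQ : a ∈ Q) (hbQ : b ∈ Q) (θ : Q →* Multiplicative ℤ)
    (h0 : θ ⟨a, haQ⟩ = 1) (h1 : θ ⟨b, hbQ⟩ ≠ 1)
    (hd : Dep (Subgroup.zpowers a) (Subgroup.zpowers b)) :
    Kill P (Subgroup.zpowers a ⊔ Subgroup.zpowers b) := by
  refine kill_adj P hL hb ?_ (kill_line P hL ha hb haQ hbQ θ h0 h1 hd.swap) hd
  rw [Subgroup.zpowers_le]
  exact ha

end Pool.Agent.Helper74.LI
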