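import Pool.Agent.Helper74.LI.Pair
import Pool.Agent.Helper52.HS.Main

/-!
# Project LI (MP_db811f_gt): assembly

`Tame`: the smallest class of subgroups which contains the subgroups of the class `Good` and the subgroups
generated by two elements which are neither cyclic nor free of rank two, and is closed under
dependent joins with cyclic subgroups and with members of the class, and under directed unions.
-/

set_option linter.unusedSectionVars false

namespace Pool.Agent.Helper74.LI

open Pool.Agent.Helper39.AH Pool.Agent.Helper52.HS

/-- The smallest class of subgroups of `G` which contains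
* the members of `Good`;
* the subgroups generated by two elements which are neither cyclic nor free of rank two;

and is closed under adding an element `s` to a member `N`, if `N` and `⟨s⟩` are dependent, under joining
two dependent members, and under directed unions. -/
inductive Tame {G : Type} [Group G] : Subgroup G → Prop
  | good (N : Subgroup G) (h : Good N) : Tame N
  | pair (a b : G) (h1 : ¬ IsCyclic (Subgroup.closure {a, b} : Subgroup G))
      (h2 : ¬ Nonempty ((Subgroup.closure {a, b} : Subgroup G) ≃* FreeGroup Bool)) :
      Tame (Subgroup.closure {a, b})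
  | adj (N : Subgroup G) (s : G) (hN : Tame N) (hd : Dep N (Subgroup.zpowers s)) :
      Tame (N ⊔ Subgroup.zpowers s)
  | join (N N' : Subgroup G) (hN : Tame N) (hN' : Tame N') (hd : Dep N N') : Tame (N ⊔ N')
  | union (Y : Set (Subgroup G)) (hY : Y.Nonempty) (hd : DirectedOn (· ≤ ·) Y)
      (hg : ∀ N ∈ Y, Tame N) : Tame (sSup Y)

theorem tame_kill {G : Type} [Group G] [Countable G] (P : FinPres G) {L : Subgroup G}
    (hL : LocInd L) {N : Subgroup G} (h : Tame N) : N ≤ L → Kill P N := by
  induction h with
  | good N h => exact fun _ => good_kill P h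
  | pair a b h1 h2 => exact fun h => kill_pair_sub P hL a b h h1 h2
  | adj N s hN hd ih =>
    intro h
    have h1 : N ≤ L := le_sup_left.trans h
    have h2 : Subgroup.zpowers s ≤ L := le_sup_right.trans h
    exact kill_adj P hL (h2 (Subgroup.mem_zpowers s)) h1 (ih h1) hd
  | join N N' hN hN' hd ih ih' =>
    intro h
    have h1 : N ≤ L := le_sup_left.trans h
    have h2 : N' ≤ L := le_sup_right.trans h
    exact kill_join_dep P hL h1 h2 (ih h1) (ih' h2) hd
  | union Y hY hd hg ih =>
    intro h
    exact kill_union P Y hY hd fun N hN => ih N hN ((le_sSup hN).trans h)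

/-- passage to a group containing a killed subgroup of finite index -/
theorem kill_of_finiteIndex {G : Type} [Group G] [Countable G] (P : FinPres G) (L : Subgroup G)
    (hfin : L.FiniteIndex) (hfg : Group.FG G) (hinf : Infinite G) (h : Kill P L) :
    Kill P (⊤ : Subgroup G) := by
  set K : Subgroup G := L.normalCore with hK
  have hKfin : K.FiniteIndex := Subgroup.finiteIndex_normalCore L
  have hKfg : K.FG := (Group.fg_iff_subgroup_fg K).1 (Subgroup.fg_of_index_ne_zero K)
  have hKinf : Infinite K := by
    have h2 := K.card_mul_index
    rw [Nat.card_eq_zero_of_infinite (α := G)] at h2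
    have h3 := (Nat.mul_eq_zero.1 h2).resolve_right hKfin.index_ne_zero
    rcases Nat.card_eq_zero.1 h3 with h4 | h4
    · exact (h4.false (⟨1, K.one_mem⟩ : K)).elim
    · exact h4
  have hKL : K ≤ L := Subgroup.normalCore_le L
  have hKn : K.Normal := Subgroup.normalCore_normal L
  obtain ⟨T, hT, hz⟩ := h_zero K hKfg hKinf
  intro x hx hb
  refine h x ?_ hb
  have hcl : (⊤ : Subgroup G) = Subgroup.closure (Set.univ : Set G) :=
    (Subgroup.closure_univ).symm
  rw [hcl] at hx
  refine mem_Sp_of_gen P _ _ ?_ hx
  intro g _ F
  obtain ⟨Q, -, hQ⟩ := hz ℤ Set.univ (fun _ _ _ _ => Set.mem_univ _) F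
    (fun g' hg' => absurd (Set.mem_univ g') hg')
  refine tt_mem_of_zero P L g T (fun t ht => hKL (hT t ht)) (fun t ht => hKL ?_) F Q hQ
  have h5 := hKn.conj_mem t (hT t ht) g⁻¹
  rw [inv_inv] at h5
  exact h5

theorem semistable_of_finite {X R : Type} (rel : R → List (X × Bool)) (h : Finite (Gp rel)) :
    H1Semistable rel := by
  classical
  have := Fintype.ofFinite (Gp rel)
  intro C
  refine ⟨Finset.univ, Finset.subset_univ C, fun E _ z hz => ⟨0, ⟨?_, ?_⟩, ?_⟩⟩
  · simp [bd]
  · intro e he
    simp at he
  · have h0 : z = 0 := by
      rw [← Finsupp.support_eq_empty, Finset.eq_empty_iff_forall_notMem]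
      intro e he
      exact (hz.2 e he).1 (Finset.mem_univ _)
    rw [h0, sub_zero]
    exact AddSubgroup.zero_mem _

theorem fg_of_pres {G : Type} [Group G] (P : FinPres G) : Group.FG G := by
  classical
  refine (Group.fg_iff).2 ⟨Set.range P.gen, ?_, Set.finite_range _⟩
  rw [eq_top_iff]
  intro g _
  obtain ⟨l, rfl⟩ := P.surj g
  rw [val_eq_lift]
  have h1 : FreeGroup.lift P.gen (FreeGroup.mk l) ∈ (FreeGroup.lift P.gen).range := ⟨_, rfl⟩
  rw [FreeGroup.range_lift_eq_closure] at h1
  exact h1

/-- the main theorem -/
theorem main {X R : Type} [Finite X] [Finite R] (rel : R → List (X × Bool))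
    (L : Subgroup (Gp rel)) (hfin : L.FiniteIndex) (hL : LocInd L) (h : Tame L) :
    H1Semistable rel := by
  rcases finite_or_infinite (Gp rel) with hf | hinf
  · exact semistable_of_finite rel hf
  · have : Countable (Gp rel) := countable_of_pres (presOf rel)
    refine semistable_of_fill rel (fill_of_kill _ ?_)
    exact kill_of_finiteIndex _ L hfin (fg_of_pres (presOf rel)) hinf
      (tame_kill (presOf rel) hL h le_rfl)

/-- finitely generated locally indicable groups without nonabelian free subgroups -/
theorem tame_of_no_free {G : Type} [Group G] {L : Subgroup G} (hL : LocInd L)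
    (hF : ¬ ∃ f : FreeGroup Bool →* L, Function.Injective f) (hfg : L.FG)
    (hc : ¬ IsCyclic L) : Tame L := by
  classical
  -- all pairs are dependent
  have hdep : ∀ a ∈ L, ∀ b ∈ L, a ≠ 1 → b ≠ 1 →
      Dep (Subgroup.zpowers a) (Subgroup.zpowers b) := by
    intro a ha b hb ha1 hb1
    by_contra h
    have hi := free_of_not_dep hL ha hb ha1 hb1 h
    apply hF
    refine ⟨(FreeGroup.lift fun i : Bool => cond i a b).codRestrict L fun w => ?_, ?_⟩
    · have h1 : FreeGroup.lift (fun i : Bool => cond i a b) w ∈
          (FreeGroup.lift fun i : Bool => cond i a b).range := ⟨w, rfl⟩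
      rw [FreeGroup.range_lift_eq_closure] at h1
      refine (Subgroup.closure_le L).2 ?_ h1
      rintro _ ⟨i, rfl⟩
      cases i
      · exact hb
      · exact ha
    · intro x y hxy
      exact hi (congrArg Subtype.val hxy)
  obtain ⟨S, hS⟩ := hfg
  have hSL : ∀ s ∈ S, s ∈ L := fun s hs => by
    rw [← hS]
    exact Subgroup.subset_closure hs
  have key : ∀ S : Finset G, (∀ s ∈ S, s ∈ L) →
      IsCyclic (Subgroup.closure (S : Set G) : Subgroup G) ∨
      Tame (Subgroup.closure (S : Set G)) := by
    intro S
    induction S using Finset.induction_on with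
    | empty =>
      intro _
      left
      rw [Finset.coe_empty, Subgroup.closure_empty]
      infer_instance
    | insert s S _ ih =>
      intro hSL
      have hs : s ∈ L := hSL s (Finset.mem_insert_self _ _)
      have hS' : ∀ t ∈ S, t ∈ L := fun t ht => hSL t (Finset.mem_insert_of_mem ht)
      have hle : Subgroup.closure (S : Set G) ≤ L := (Subgroup.closure_le L).2 hS'
      have hcl : Subgroup.closure ((insert s S : Finset G) : Set G) =
          Subgroup.closure (S : Set G) ⊔ Subgroup.zpowers s := by
        rw [Finset.coe_insert, Set.insert_eq, Subgroup.closure_union, sup_comm,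
          Subgroup.zpowers_eq_closure]
      rw [hcl]
      by_cases hcy : IsCyclic (Subgroup.closure (S : Set G) : Subgroup G)
      · obtain ⟨⟨c, hc⟩, hc'⟩ := hcy
        have hz : Subgroup.closure (S : Set G) = Subgroup.zpowers c := by
          apply le_antisymm
          · intro x hx
            obtain ⟨n, hn⟩ := hc' ⟨x, hx⟩
            exact ⟨n, congrArg Subtype.val hn⟩
          · rw [Subgroup.zpowers_le]
            exact hc
        rw [hz]
        have hz2 : Subgroup.zpowers c ⊔ Subgroup.zpowers s = Subgroup.closure {c, s} := by
          rw [Subgroup.zpowers_eq_closure, Subgroup.zpowers_eq_closure,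
            ← Subgroup.closure_union]
          rfl
        rw [hz2]
        by_cases hcy2 : IsCyclic (Subgroup.closure {c, s} : Subgroup G)
        · exact Or.inl hcy2
        · right
          refine Tame.pair c s hcy2 ?_
          rintro ⟨e⟩
          apply hF
          have hQL : Subgroup.closure {c, s} ≤ L := by
            rw [Subgroup.closure_le]
            rintro x (rfl | rfl)
            · exact hle hc
            · exact hs
          exact ⟨(Subgroup.inclusion hQL).comp e.symm.toMonoidHom,
            (Subgroup.inclusion_injective hQL).comp e.symm.injective⟩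
      · right
        have ht := (ih hS').resolve_left hcy
        by_cases hs1 : s = 1
        · rw [hs1, Subgroup.zpowers_one_eq_bot, sup_bot_eq]
          exact ht
        · obtain ⟨n, hn, hn1⟩ : ∃ n ∈ Subgroup.closure (S : Set G), n ≠ 1 := by
            by_contra hcon
            push Not at hcon
            apply hcy
            have hb : Subgroup.closure (S : Set G) = ⊥ := (Subgroup.eq_bot_iff_forall _).2 hcon
            rw [hb]
            infer_instance
          refine Tame.adj _ s ht ?_
          refine (hdep n (hle hn) s hs hn1 hs1).mono ?_ le_rfl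
          rw [Subgroup.zpowers_le]
          exact hn
  have h1 := key S hSL
  rw [hS] at h1
  exact h1.resolve_left hc

theorem main_no_free {X R : Type} [Finite X] [Finite R] (rel : R → List (X × Bool))
    (L : Subgroup (Gp rel)) (hfin : L.FiniteIndex) (hL : LocInd L)
    (hF : ¬ ∃ f : FreeGroup Bool →* L, Function.Injective f) (hc : ¬ IsCyclic L) :
    H1Semistable rel := by
  have hfg : Group.FG (Gp rel) := fg_of_pres (presOf rel)
  have hLfg : L.FG := (Group.fg_iff_subgroup_fg L).1 (Subgroup.fg_of_index_ne_zero L)
  exact main rel L hfin hL (tame_of_no_free hL hF hLfg hc)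

end Pool.Agent.Helper74.LI
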