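import Pool.Agent.Helper74.LI.Line
import Pool.Agent.Helper74.LI.Join

/-!
# Project LI (MP_db811f_gt): two-generator subgroups which are neither cyclic nor free are killed
-/

set_option linter.unusedSectionVars false

namespace Pool.Agent.Helper74.LI

open Pool.Agent.Helper52.HS Monoid

variable {G : Type} [Group G]

theorem exists_zpow_of_unit (m : FreeGroup Unit) : ∃ n : ℤ, m = FreeGroup.of () ^ n := by
  refine ⟨FreeGroup.freeGroupUnitEquivInt m, ?_⟩
  have h := FreeGroup.freeGroupUnitEquivInt.symm_apply_apply m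
  exact h.symm

/-- the powers of `a` and `b` along a word of the free product -/
theorem alt_of_word {L : Subgroup G} (hL : LocInd L) {a b : G} (ha : a ∈ L) (hb : b ∈ L)
    (ha1 : a ≠ 1) (hb1 : b ≠ 1) (t : List (Σ _ : Bool, FreeGroup Unit)) :
    ∀ p : Σ _ : Bool, FreeGroup Unit, (∀ q ∈ p :: t, Sigma.snd q ≠ 1) →
      (p :: t).IsChain (fun l l' => Sigma.fst l ≠ Sigma.fst l') →
      Alt (Subgroup.zpowers a) (Subgroup.zpowers b) p.1
        ((p :: t).map fun q => FreeGroup.lift (fun _ => cond q.1 a b) q.2) := by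
  induction t with
  | nil =>
    rintro ⟨i, m⟩ h1 -
    have hm := h1 ⟨i, m⟩ (by simp)
    obtain ⟨n, rfl⟩ := exists_zpow_of_unit m
    have hn : n ≠ 0 := by
      rintro rfl
      exact hm (zpow_zero _)
    rw [List.map_cons, List.map_nil]
    refine ⟨?_, ?_, trivial⟩
    · simp only [map_zpow, FreeGroup.lift_apply_of]
      cases i
      · exact Subgroup.zpow_mem_zpowers b n
      · exact Subgroup.zpow_mem_zpowers a n
    · simp only [map_zpow, FreeGroup.lift_apply_of]
      cases i
      · exact fun h => hn (zpow_eq_one hL hb hb1 n h)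
      · exact fun h => hn (zpow_eq_one hL ha ha1 n h)
  | cons q t ih =>
    rintro ⟨i, m⟩ h1 h2
    have hm := h1 ⟨i, m⟩ (by simp)
    obtain ⟨n, rfl⟩ := exists_zpow_of_unit m
    have hn : n ≠ 0 := by
      rintro rfl
      exact hm (zpow_zero _)
    rw [List.isChain_cons_cons] at h2
    have h3 := ih q (fun r hr => h1 r (List.mem_cons_of_mem _ hr)) h2.2
    have hq : q.1 = !i := by
      have := h2.1
      revert this
      cases i <;> cases q.1 <;> simp
    rw [hq] at h3
    rw [List.map_cons]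
    refine ⟨?_, ?_, h3⟩
    · simp only [map_zpow, FreeGroup.lift_apply_of]
      cases i
      · exact Subgroup.zpow_mem_zpowers b n
      · exact Subgroup.zpow_mem_zpowers a n
    · simp only [map_zpow, FreeGroup.lift_apply_of]
      cases i
      · exact fun h => hn (zpow_eq_one hL hb hb1 n h)
      · exact fun h => hn (zpow_eq_one hL ha ha1 n h)

theorem lift_prod (a b : G) (w : CoprodI.Word fun _ : Bool => FreeGroup Unit) :
    CoprodI.lift (fun i : Bool => FreeGroup.lift fun _ : Unit => cond i a b) w.prod =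
      (w.toList.map fun q => FreeGroup.lift (fun _ => cond q.1 a b) q.2).prod := by
  unfold CoprodI.Word.prod
  rw [map_list_prod, List.map_map]
  congr 1

/-- independent elements generate a free group -/
theorem free_of_not_dep {L : Subgroup G} (hL : LocInd L) {a b : G} (ha : a ∈ L) (hb : b ∈ L)
    (ha1 : a ≠ 1) (hb1 : b ≠ 1) (h : ¬ Dep (Subgroup.zpowers a) (Subgroup.zpowers b)) :
    Function.Injective (FreeGroup.lift fun i : Bool => cond i a b) := by
  have e : (FreeGroup.lift fun i : Bool => cond i a b) =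
      (CoprodI.lift fun i : Bool => FreeGroup.lift fun _ : Unit => cond i a b).comp
        (@freeGroupEquivCoprodI Bool).toMonoidHom := by
    ext i
    simp
  rw [e, MonoidHom.coe_comp]
  refine Function.Injective.comp ?_ (MulEquiv.injective freeGroupEquivCoprodI)
  rw [injective_iff_map_eq_one]
  intro m hm
  obtain ⟨w, rfl⟩ : ∃ w : CoprodI.Word fun _ : Bool => FreeGroup Unit, w.prod = m :=
    ⟨CoprodI.Word.equiv m, CoprodI.Word.equiv.symm_apply_apply m⟩
  rw [lift_prod] at hm
  obtain ⟨l, h1, h2⟩ := w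
  cases l with
  | nil => rfl
  | cons p t =>
    exact absurd ⟨p.1, _, by simp, alt_of_word hL ha hb ha1 hb1 t p h1 h2, hm⟩ h

theorem pair_equiv_free {L : Subgroup G} (hL : LocInd L) {a b : G} (ha : a ∈ L) (hb : b ∈ L)
    (ha1 : a ≠ 1) (hb1 : b ≠ 1) (h : ¬ Dep (Subgroup.zpowers a) (Subgroup.zpowers b)) :
    Nonempty ((Subgroup.closure {a, b} : Subgroup G) ≃* FreeGroup Bool) := by
  have hi := free_of_not_dep hL ha hb ha1 hb1 h
  have hr : (FreeGroup.lift fun i : Bool => cond i a b).range = Subgroup.closure {a, b} := by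
    rw [FreeGroup.range_lift_eq_closure]
    congr 1
    ext x
    simp only [Set.mem_range, Set.mem_insert_iff, Set.mem_singleton_iff]
    constructor
    · rintro ⟨i, rfl⟩
      cases i
      · exact Or.inr rfl
      · exact Or.inl rfl
    · rintro (rfl | rfl)
      · exact ⟨true, rfl⟩
      · exact ⟨false, rfl⟩
  rw [← hr]
  exact ⟨(MonoidHom.ofInjective hi).symm⟩

/-- Nielsen transformations -/
theorem nielsen (Q : Subgroup G) (θ : Q →* Multiplicative ℤ) (n : ℕ) :
    ∀ (a b : G) (ha : a ∈ Q), b ∈ Q → Subgroup.closure {a, b} = Q →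
      (θ ⟨a, ha⟩).toAdd.natAbs = n →
      ∃ (a' b' : G) (ha' : a' ∈ Q) (_ : b' ∈ Q), Subgroup.closure {a', b'} = Q ∧
        θ ⟨a', ha'⟩ = 1 := by
  induction n using Nat.strong_induction_on with
  | _ n ih =>
  intro a b ha hb hQ hn
  by_cases h0 : (θ ⟨a, ha⟩).toAdd = 0
  · exact ⟨a, b, ha, hb, hQ, toAdd_eq_zero.1 h0⟩
  · set q : ℤ := (θ ⟨b, hb⟩).toAdd / (θ ⟨a, ha⟩).toAdd with hq
    have hb' : b * a ^ (-q) ∈ Q := Q.mul_mem hb (Q.zpow_mem ha _)
    have hθ : (θ ⟨b * a ^ (-q), hb'⟩).toAdd = (θ ⟨b, hb⟩).toAdd % (θ ⟨a, ha⟩).toAdd := by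
      have e : (⟨b * a ^ (-q), hb'⟩ : Q) = ⟨b, hb⟩ * ⟨a, ha⟩ ^ (-q) := rfl
      rw [e, map_mul, map_zpow, toAdd_mul, toAdd_zpow, smul_eq_mul, Int.emod_def, ← hq]
      ring
    refine ih (θ ⟨b * a ^ (-q), hb'⟩).toAdd.natAbs ?_ (b * a ^ (-q)) a hb' ha ?_ rfl
    · rw [← hn, hθ]
      have h1 := Int.emod_nonneg (θ ⟨b, hb⟩).toAdd h0
      have h2 := Int.emod_lt_abs (θ ⟨b, hb⟩).toAdd h0
      rw [Int.abs_eq_natAbs] at h2
      omega
    · rw [← hQ]
      apply le_antisymm
      · rw [Subgroup.closure_le]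
        rintro x (rfl | rfl)
        · exact Subgroup.mul_mem _ (Subgroup.subset_closure (by simp))
            (Subgroup.zpow_mem _ (Subgroup.subset_closure (by simp)) _)
        · exact Subgroup.subset_closure (by simp)
      · rw [Subgroup.closure_le]
        have h1 : a ∈ Subgroup.closure {b * a ^ (-q), a} := Subgroup.subset_closure (by simp)
        have h2 : b * a ^ (-q) ∈ Subgroup.closure {b * a ^ (-q), a} :=
          Subgroup.subset_closure (by simp)
        rintro x (rfl | rfl)
        · exact h1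
        · have h3 := Subgroup.mul_mem _ h2 (Subgroup.zpow_mem _ h1 q)
          rw [zpow_neg, inv_mul_cancel_right] at h3
          rw [zpow_neg]
          exact h3

theorem kill_pair_sub (P : FinPres G) {L : Subgroup G} (hL : LocInd L) (a b : G)
    (hQL : Subgroup.closure {a, b} ≤ L) (h1 : ¬ IsCyclic (Subgroup.closure {a, b} : Subgroup G))
    (h2 : ¬ Nonempty ((Subgroup.closure {a, b} : Subgroup G) ≃* FreeGroup Bool)) :
    Kill P (Subgroup.closure {a, b}) := by
  set Q : Subgroup G := Subgroup.closure {a, b} with hQ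
  have hfg : Q.FG := by
    classical
    exact ⟨{a, b}, by rw [Finset.coe_insert, Finset.coe_singleton]⟩
  have hne : Q ≠ ⊥ := by
    intro h
    apply h1
    rw [h]
    infer_instance
  obtain ⟨θ, hθ⟩ := hL Q hQL hfg hne
  obtain ⟨a', b', ha', hb', hcl, h0⟩ := nielsen Q θ _ a b (Subgroup.subset_closure (by simp))
    (Subgroup.subset_closure (by simp)) rfl rfl
  have hza : Subgroup.zpowers a' ⊔ Subgroup.zpowers b' = Q := by
    rw [← hcl, Subgroup.zpowers_eq_closure, Subgroup.zpowers_eq_closure,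
      ← Subgroup.closure_union]
    rfl
  have ha1 : a' ≠ 1 := by
    rintro rfl
    apply h1
    rw [Subgroup.zpowers_one_eq_bot, bot_sup_eq] at hza
    rw [← hza]
    infer_instance
  have hb1' : θ ⟨b', hb'⟩ ≠ 1 := by
    intro hb0
    apply hθ
    have h3 : ∀ h (hh : h ∈ Subgroup.closure {a', b'}), θ ⟨h, hcl ▸ hh⟩ = 1 := by
      intro h hh
      refine Subgroup.closure_induction (p := fun h hh => θ ⟨h, hcl ▸ hh⟩ = 1) ?_ ?_ ?_ ?_ hh
      · rintro x (rfl | rfl)
        · exact h0
        · exact hb0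
      · exact map_one θ
      · intro x y hx hy h4 h5
        have h6 : θ (⟨x, hcl ▸ hx⟩ * ⟨y, hcl ▸ hy⟩) = 1 := by rw [map_mul, h4, h5, mul_one]
        exact h6
      · intro x hx h4
        have h6 : θ (⟨x, hcl ▸ hx⟩⁻¹) = 1 := by rw [map_inv, h4, inv_one]
        exact h6
    ext x
    rw [h3 x.1 (hcl.symm ▸ x.2)]
    rfl
  have hb1 : b' ≠ 1 := by
    rintro rfl
    exact hb1' (map_one θ)
  have hd : Dep (Subgroup.zpowers a') (Subgroup.zpowers b') := by
    by_contra hd
    apply h2
    have h3 := pair_equiv_free hL (hQL ha') (hQL hb') ha1 hb1 hd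
    rw [hcl] at h3
    exact h3
  have h4 := kill_pair P hL (hQL ha') (hQL hb') ha' hb' θ h0 hb1' hd
  rw [hza] at h4
  exact h4

end Pool.Agent.Helper74.LI
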