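import Pool.Agent.Helper52.HS.Alg

/-!
# Project LI (MP_db811f_gt): sums of distinct translations are surjective

For a locally indicable group `L ≤ G` and a finite non-empty family of distinct elements `f i ∈ L` with
signs `ε i` the map `E ↦ ∑ i, ε i • act (f i) E` is surjective on the functions `G → ℤ`.
-/

namespace Pool.Agent.Helper74.LI

open Pool.Agent.Helper52.HS

variable {G : Type} [Group G]

/-- `L` is locally indicable: every nontrivial finitely generated subgroup of `L` has a nontrivial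
homomorphism to the integers -/
def LocInd (L : Subgroup G) : Prop :=
  ∀ H : Subgroup G, H ≤ L → H.FG → H ≠ ⊥ → ∃ f : H →* Multiplicative ℤ, f ≠ 1

theorem exists_level (H : Subgroup G) (θ : H →* Multiplicative ℤ) :
    ∃ lam : G → ℤ, ∀ (x : G) (h : H), lam (x * h) = lam x + (θ h).toAdd := by
  have hm : ∀ x : G, ((x : G ⧸ H).out)⁻¹ * x ∈ H := by
    intro x
    rw [← QuotientGroup.eq]
    exact QuotientGroup.out_eq' _
  refine ⟨fun x => (θ ⟨((x : G ⧸ H).out)⁻¹ * x, hm x⟩).toAdd, fun x h => ?_⟩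
  have e : ((x * h : G) : G ⧸ H) = (x : G ⧸ H) := by
    rw [QuotientGroup.eq]
    have : (x * (h : G))⁻¹ * x = (h : G)⁻¹ := by group
    rw [this]
    exact H.inv_mem h.2
  have e2 : (⟨(((x * h : G) : G ⧸ H).out)⁻¹ * (x * h), hm (x * h)⟩ : H) =
      ⟨((x : G ⧸ H).out)⁻¹ * x, hm x⟩ * h := by
    apply Subtype.ext
    change (((x * h : G) : G ⧸ H).out)⁻¹ * (x * h) = ((x : G ⧸ H).out)⁻¹ * x * h
    rw [e, mul_assoc]
  change (θ (⟨(((x * h : G) : G ⧸ H).out)⁻¹ * (x * h), hm (x * h)⟩ : H)).toAdd = _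
  rw [e2, map_mul, toAdd_mul]

variable {ι : Type}

/-- the operator `E ↦ ∑ i ∈ I, ε i • act (f i) E` -/
def W (I : Finset ι) (f : ι → G) (ε : ι → ℤ) (E : G → ℤ) : G → ℤ :=
  fun x => ∑ i ∈ I, ε i * E (x * (f i)⁻¹)

theorem W_eq (I : Finset ι) (f : ι → G) (ε : ι → ℤ) (E : G → ℤ) :
    W I f ε E = ∑ i ∈ I, ε i • act (f i) E := by
  funext x
  simp [W, act, Finset.sum_apply]

theorem W_add (I : Finset ι) (f : ι → G) (ε : ι → ℤ) (E E' : G → ℤ) :
    W I f ε (E + E') = W I f ε E + W I f ε E' := by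
  funext x
  simp [W, mul_add, Finset.sum_add_distrib]

theorem one_sided (I : Finset ι) (f : ι → G) (ε : ι → ℤ) (lam : G → ℤ) (t : ι → ℤ)
    (hlam : ∀ i ∈ I, ∀ x, lam (x * (f i)⁻¹) = lam x - t i) (m : ℤ) (hm : ∀ i ∈ I, m ≤ t i)
    (hbot : ∀ F : G → ℤ, ∃ E, W (I.filter fun i => t i = m) f ε E = F) (c : ℤ) (F : G → ℤ)
    (hF : ∀ x, lam x < c → F x = 0) :
    ∃ E : G → ℤ, (∀ x, lam x < c - m → E x = 0) ∧ W I f ε E = F := by
  classical
  choose T hT using hbot
  -- the level `n` solution
  let st : ℕ → (G → ℤ) → (G → ℤ) := fun n R => fun x =>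
    if lam x = c + n - m then T (fun y => if lam y = c + n then R y else 0) x else 0
  let R : ℕ → G → ℤ := fun n => Nat.rec F (fun n r => r - W I f ε (st n r)) n
  have R0 : R 0 = F := rfl
  have RS : ∀ n, R (n + 1) = R n - W I f ε (st n (R n)) := fun n => rfl
  have hst : ∀ (n : ℕ) x, lam x ≠ c + n - m → st n (R n) x = 0 := by
    intro n x hx
    simp only [st, if_neg hx]
  have hWlow : ∀ (n : ℕ) x, lam x < c + n → W I f ε (st n (R n)) x = 0 := by
    intro n x hx
    refine Finset.sum_eq_zero fun i hi => ?_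
    rw [hst n, mul_zero]
    rw [hlam i hi]
    have := hm i hi
    omega
  have hWeq : ∀ (n : ℕ) x, lam x = c + n → W I f ε (st n (R n)) x = R n x := by
    intro n x hx
    have h1 := congrFun (hT (fun y => if lam y = c + n then R n y else 0)) x
    rw [if_pos hx] at h1
    rw [← h1]
    unfold W
    rw [Finset.sum_filter]
    refine Finset.sum_congr rfl fun i hi => ?_
    by_cases h : t i = m
    · rw [if_pos h]
      congr 1
      have h2 : lam (x * (f i)⁻¹) = c + n - m := by rw [hlam i hi, h, hx]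
      simp only [st, if_pos h2]
    · rw [if_neg h, hst n, mul_zero]
      rw [hlam i hi]
      omega
  have hR : ∀ (n : ℕ) x, lam x < c + n → R n x = 0 := by
    intro n
    induction n with
    | zero =>
      intro x hx
      rw [R0]
      exact hF x (by simpa using hx)
    | succ n ih =>
      intro x hx
      rw [RS, Pi.sub_apply]
      rcases lt_or_ge (lam x) (c + n) with h | h
      · rw [ih x h, hWlow n x h, sub_zero]
      · have h2 : lam x = c + n := by push_cast at hx; omega
        rw [hWeq n x h2, sub_self]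
  have hsum : ∀ (N : ℕ) x, F x = R N x + ∑ n ∈ Finset.range N, W I f ε (st n (R n)) x := by
    intro N x
    induction N with
    | zero => simp [R0]
    | succ N ih =>
      rw [Finset.sum_range_succ, RS, Pi.sub_apply, ih]
      ring
  let E : G → ℤ := fun x =>
    if lam x < c - m then 0 else st (lam x - (c - m)).toNat (R (lam x - (c - m)).toNat) x
  have hE : ∀ (N : ℕ) x, lam x < c - m + N → E x = ∑ n ∈ Finset.range N, st n (R n) x := by
    intro N x hx
    by_cases h : lam x < c - m
    · simp only [E, if_pos h]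
      refine (Finset.sum_eq_zero fun n _ => hst n x ?_).symm
      omega
    · simp only [E, if_neg h]
      rw [Finset.sum_eq_single (lam x - (c - m)).toNat]
      · intro n _ hn
        refine hst n x fun h3 => hn ?_
        omega
      · intro hn
        exfalso
        apply hn
        rw [Finset.mem_range]
        omega
  refine ⟨E, fun x hx => by simp only [E, if_pos hx], ?_⟩
  funext x
  obtain ⟨N, hN⟩ : ∃ N : ℕ, lam x < c + N := ⟨(lam x - c).toNat + 1, by push_cast; omega⟩
  rw [hsum N x, hR N x hN, zero_add]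
  unfold W
  rw [Finset.sum_comm]
  refine Finset.sum_congr rfl fun i hi => ?_
  rw [← Finset.mul_sum]
  congr 1
  refine hE N _ ?_
  rw [hlam i hi]
  have := hm i hi
  omega

theorem sur (L : Subgroup G) (hL : LocInd L) (n : ℕ) :
    ∀ I : Finset ι, I.card = n → I.Nonempty → ∀ (f : ι → G), (∀ i ∈ I, f i ∈ L) →
      (∀ i ∈ I, ∀ j ∈ I, f i = f j → i = j) → ∀ ε : ι → ℤ, (∀ i ∈ I, ε i = 1 ∨ ε i = -1) →
      ∀ F : G → ℤ, ∃ E, W I f ε E = F := by
  classical
  induction n using Nat.strong_induction_on with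
  | _ n ih =>
  intro I hcard hI f hfL hf ε hε F
  obtain ⟨i0, hi0⟩ := hI
  by_cases hone : ∀ i ∈ I, i = i0
  · -- a single term
    have hI1 : I = {i0} := by
      ext i
      rw [Finset.mem_singleton]
      exact ⟨hone i, fun h => h ▸ hi0⟩
    refine ⟨fun x => ε i0 * F (x * f i0), ?_⟩
    funext x
    unfold W
    rw [hI1, Finset.sum_singleton]
    change ε i0 * (ε i0 * F (x * (f i0)⁻¹ * f i0)) = F x
    rw [inv_mul_cancel_right, ← mul_assoc]
    rcases hε i0 hi0 with h | h <;> rw [h] <;> simp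
  · push Not at hone
    obtain ⟨i1, hi1, hne⟩ := hone
    -- normalize
    let f' : ι → G := fun i => f i * (f i0)⁻¹
    let H : Subgroup G := Subgroup.closure (f' '' (I : Set ι))
    have hmem : ∀ i ∈ I, f' i ∈ H := fun i hi => Subgroup.subset_closure ⟨i, hi, rfl⟩
    have hHL : H ≤ L := by
      refine (Subgroup.closure_le _).2 ?_
      rintro _ ⟨i, hi, rfl⟩
      exact L.mul_mem (hfL i hi) (L.inv_mem (hfL i0 hi0))
    have hHfg : H.FG := ⟨I.image f', by rw [Finset.coe_image]⟩
    have hHne : H ≠ ⊥ := by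
      intro h
      have h1 := hmem i1 hi1
      rw [h, Subgroup.mem_bot] at h1
      exact hne (hf i1 hi1 i0 hi0 (mul_inv_eq_one.1 h1))
    obtain ⟨θ, hθ⟩ := hL H hHL hHfg hHne
    obtain ⟨lam, hlam⟩ := exists_level H θ
    let t : ι → ℤ := fun i => if hi : i ∈ I then (θ ⟨f' i, hmem i hi⟩).toAdd else 0
    have ht : ∀ i (hi : i ∈ I), t i = (θ ⟨f' i, hmem i hi⟩).toAdd := fun i hi => dif_pos hi
    have hlam' : ∀ i ∈ I, ∀ x, lam (x * (f' i)⁻¹) = lam x - t i := by
      intro i hi x
      have h1 := hlam (x * (f' i)⁻¹) ⟨f' i, hmem i hi⟩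
      rw [← ht i hi] at h1
      have h2 : x * (f' i)⁻¹ * ((⟨f' i, hmem i hi⟩ : H) : G) = x := inv_mul_cancel_right x (f' i)
      rw [h2] at h1
      omega
    have ht0 : t i0 = 0 := by
      rw [ht i0 hi0]
      have h1 : (⟨f' i0, hmem i0 hi0⟩ : H) = 1 := by
        apply Subtype.ext
        change f i0 * (f i0)⁻¹ = 1
        exact mul_inv_cancel _
      rw [h1, map_one]
      rfl
    obtain ⟨i2, hi2, ht2⟩ : ∃ i ∈ I, t i ≠ 0 := by
      by_contra hcon
      push Not at hcon
      apply hθ
      have h1 : ∀ h (hh : h ∈ H), θ ⟨h, hh⟩ = 1 := by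
        intro h hh
        refine Subgroup.closure_induction (p := fun h hh => θ ⟨h, hh⟩ = 1) ?_ ?_ ?_ ?_ hh
        · rintro _ ⟨i, hi, rfl⟩
          have h2 := hcon i hi
          rw [ht i hi] at h2
          exact toAdd_eq_zero.1 h2
        · exact map_one θ
        · intro a b ha hb h3 h4
          have h5 : θ (⟨a, ha⟩ * ⟨b, hb⟩) = 1 := by rw [map_mul, h3, h4, mul_one]
          exact h5
        · intro a ha h3
          have h5 : θ (⟨a, ha⟩⁻¹) = 1 := by rw [map_inv, h3, inv_one]
          exact h5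
      ext h
      rw [h1 h.1 h.2]
      rfl
    -- surjectivity of the extreme parts
    have hext : ∀ v : ℤ, (∃ i ∈ I, t i = v) → ∀ F : G → ℤ,
        ∃ E, W (I.filter fun i => t i = v) f' ε E = F := by
      rintro v ⟨i, hi, hv⟩
      have hlt : (I.filter fun i => t i = v).card < n := by
        rw [← hcard]
        refine Finset.card_lt_card ⟨Finset.filter_subset _ _, fun hsub => ?_⟩
        have e0 := (Finset.mem_filter.1 (hsub hi0)).2
        have e2 := (Finset.mem_filter.1 (hsub hi2)).2
        exact ht2 (by rw [e2, ← e0, ht0])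
      refine ih _ hlt _ rfl ⟨i, Finset.mem_filter.2 ⟨hi, hv⟩⟩ f' ?_ ?_ ε ?_
      · intro j hj
        exact hHL (hmem j (Finset.mem_filter.1 hj).1)
      · intro j hj k hk hjk
        refine hf j (Finset.mem_filter.1 hj).1 k (Finset.mem_filter.1 hk).1 ?_
        exact mul_right_cancel hjk
      · intro j hj
        exact hε j (Finset.mem_filter.1 hj).1
    have hne' : (I.image t).Nonempty := ⟨t i0, Finset.mem_image_of_mem _ hi0⟩
    set mn : ℤ := (I.image t).min' hne' with hmn
    set mx : ℤ := (I.image t).max' hne' with hmx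
    have hmin : ∀ i ∈ I, mn ≤ t i := fun i hi =>
      Finset.min'_le _ _ (Finset.mem_image_of_mem _ hi)
    have hmax : ∀ i ∈ I, t i ≤ mx := fun i hi =>
      Finset.le_max' _ _ (Finset.mem_image_of_mem _ hi)
    have hmn' : ∃ i ∈ I, t i = mn := Finset.mem_image.1 (Finset.min'_mem _ hne')
    have hmx' : ∃ i ∈ I, t i = mx := Finset.mem_image.1 (Finset.max'_mem _ hne')
    let F' : G → ℤ := act (f i0)⁻¹ F
    obtain ⟨E₁, -, hE₁⟩ := one_sided I f' ε lam t hlam' mn hmin (hext mn hmn') 0
      (fun x => if lam x < 0 then 0 else F' x) (fun x hx => if_pos hx)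
    obtain ⟨E₂, -, hE₂⟩ := one_sided I f' ε (fun x => -lam x) (fun i => -t i)
      (fun i hi x => by
        have := hlam' i hi x
        simp only [this]
        ring)
      (-mx) (fun i hi => neg_le_neg (hmax i hi)) (by
        have e : (I.filter fun i => -t i = -mx) = I.filter fun i => t i = mx := by
          refine Finset.filter_congr fun i _ => ?_
          exact neg_inj
        rw [e]
        exact hext mx hmx') 1
      (fun x => if lam x < 0 then F' x else 0) (fun x hx => if_neg (by omega))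
    refine ⟨E₁ + E₂, ?_⟩
    have h1 : W I f' ε (E₁ + E₂) = F' := by
      rw [W_add, hE₁, hE₂]
      funext x
      by_cases hx : lam x < 0 <;> simp [hx]
    funext x
    have h2 := congrFun h1 (x * (f i0)⁻¹)
    have h3 : F' (x * (f i0)⁻¹) = F x := by
      change F (x * (f i0)⁻¹ * ((f i0)⁻¹)⁻¹) = F x
      rw [inv_inv, inv_mul_cancel_right]
    rw [h3] at h2
    rw [← h2]
    unfold W
    refine Finset.sum_congr rfl fun i _ => ?_
    have e : x * (f i)⁻¹ = x * (f i0)⁻¹ * (f' i)⁻¹ := by
      change x * (f i)⁻¹ = x * (f i0)⁻¹ * (f i * (f i0)⁻¹)⁻¹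
      group
    rw [e]

end Pool.Agent.Helper74.LI
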